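import Pool.Agent.H46.EXC.Stmts

/-!
# EXC, row TRE: Hölder's inequality for energies, from the root of a binary tree
-/

set_option autoImplicit false

namespace Pool.EXC

open Finset

namespace TREaux

lemma mem_EnS {G α : Type} [CommGroup G] (R : ℝ → Set G) (A : Finset α) (f : α → G)
    (s : ℕ) (r : ℝ) (w : (Fin s → α) × (Fin s → α)) :
    w ∈ EnS R A f s r ↔ ((∀ j, w.1 j ∈ A) ∧ ∀ j, w.2 j ∈ A) ∧
      (∏ j, f (w.1 j)) * (∏ j, f (w.2 j))⁻¹ ∈ R r := by
  classical
  unfold EnS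
  rw [Finset.mem_filter, Finset.mem_product, Fintype.mem_piFinset, Fintype.mem_piFinset]

/-- Transfer of energies along an injection. -/
lemma En_le_of_inj {G γ δ : Type} [CommGroup G] (R : ℝ → Set G) (C : Finset γ) (D : Finset δ)
    (h : γ → G) (g : δ → G) (φ : γ → δ) (hφ : ∀ y ∈ C, φ y ∈ D)
    (hinj : ∀ y ∈ C, ∀ y' ∈ C, φ y = φ y' → y = y') (hg : ∀ y ∈ C, h y = g (φ y))
    (s : ℕ) (r : ℝ) : En R C h s r ≤ En R D g s r := by
  unfold En
  refine Finset.card_le_card_of_injOn (fun w => (fun j => φ (w.1 j), fun j => φ (w.2 j))) ?_ ?_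
  · intro w hw
    rw [Finset.mem_coe, mem_EnS] at hw ⊢
    obtain ⟨⟨h1, h2⟩, h3⟩ := hw
    refine ⟨⟨fun j => hφ _ (h1 j), fun j => hφ _ (h2 j)⟩, ?_⟩
    have e1 : ∏ j, g (φ (w.1 j)) = ∏ j, h (w.1 j) :=
      Finset.prod_congr rfl (fun j _ => (hg _ (h1 j)).symm)
    have e2 : ∏ j, g (φ (w.2 j)) = ∏ j, h (w.2 j) :=
      Finset.prod_congr rfl (fun j _ => (hg _ (h2 j)).symm)
    dsimp only
    rw [e1, e2]
    exact h3
  · intro w hw w' hw' e
    rw [Finset.mem_coe, mem_EnS] at hw hw'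
    have e1 := congrArg Prod.fst e
    have e2 := congrArg Prod.snd e
    refine Prod.ext (funext fun j => ?_) (funext fun j => ?_)
    · exact hinj _ (hw.1.1 j) _ (hw'.1.1 j) (congrFun e1 j)
    · exact hinj _ (hw.1.2 j) _ (hw'.1.2 j) (congrFun e2 j)

open Classical in
/-- The tuples which are constant outside of `S`. -/
noncomputable def CS {α : Type} {n : ℕ} (A : Fin n → Finset α) (a₀ : α) (S : Finset (Fin n)) :
    Finset (Fin n → α) := Fintype.piFinset (fun k => if k ∈ S then A k else {a₀})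

lemma mem_CS {α : Type} {n : ℕ} (A : Fin n → Finset α) (a₀ : α) (S : Finset (Fin n))
    (y : Fin n → α) : y ∈ CS A a₀ S ↔ (∀ k ∈ S, y k ∈ A k) ∧ ∀ k, k ∉ S → y k = a₀ := by
  unfold CS
  rw [Fintype.mem_piFinset]
  constructor
  · intro h
    refine ⟨fun k hk => ?_, fun k hk => ?_⟩
    · have := h k
      rwa [if_pos hk] at this
    · have := h k
      rwa [if_neg hk, Finset.mem_singleton] at this
  · rintro ⟨h1, h2⟩ k
    by_cases hk : k ∈ S
    · rw [if_pos hk]; exact h1 k hk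
    · rw [if_neg hk, Finset.mem_singleton]; exact h2 k hk

open Classical in
/-- Restriction of a tuple to `S`. -/
noncomputable def rs {α : Type} {n : ℕ} (a₀ : α) (S : Finset (Fin n)) (y : Fin n → α) :
    Fin n → α := fun k => if k ∈ S then y k else a₀

lemma rs_of_mem {α : Type} {n : ℕ} (a₀ : α) {S : Finset (Fin n)} (y : Fin n → α) {k : Fin n}
    (hk : k ∈ S) : rs a₀ S y k = y k := by
  unfold rs; rw [if_pos hk]

lemma rs_of_notMem {α : Type} {n : ℕ} (a₀ : α) {S : Finset (Fin n)} (y : Fin n → α) {k : Fin n}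
    (hk : k ∉ S) : rs a₀ S y k = a₀ := by
  unfold rs; rw [if_neg hk]

lemma rs_mem {α : Type} {n : ℕ} (A : Fin n → Finset α) (a₀ : α) {S S' : Finset (Fin n)}
    (hS : S' ⊆ S) {y : Fin n → α} (hy : y ∈ CS A a₀ S) : rs a₀ S' y ∈ CS A a₀ S' := by
  rw [mem_CS] at hy ⊢
  refine ⟨fun k hk => ?_, fun k hk => rs_of_notMem a₀ y hk⟩
  rw [rs_of_mem a₀ y hk]
  exact hy.1 k (hS hk)

/-- The function on tuples. -/
def fS {G α : Type} [CommGroup G] {n : ℕ} (f : Fin n → α → G) (S : Finset (Fin n))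
    (y : Fin n → α) : G := ∏ k ∈ S, f k (y k)

lemma empty_case {G α : Type} [CommGroup G] (R : ℝ → Set G) {n : ℕ} (A : Fin n → Finset α)
    (a₀ : α) (g : (Fin n → α) → G) (s : ℕ) (r : ℝ) : En R (CS A a₀ ∅) g s r ≤ 1 := by
  unfold En
  rw [Finset.card_le_one]
  have h : ∀ y : Fin n → α, y ∈ CS A a₀ ∅ → y = fun _ => a₀ := by
    intro y hy
    rw [mem_CS] at hy
    exact funext fun k => hy.2 k (Finset.notMem_empty k)
  intro w hw w' hw'
  rw [mem_EnS] at hw hw'
  refine Prod.ext (funext fun j => ?_) (funext fun j => ?_)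
  · rw [h _ (hw.1.1 j), h _ (hw'.1.1 j)]
  · rw [h _ (hw.1.2 j), h _ (hw'.1.2 j)]

lemma single_case {G α : Type} [CommGroup G] (R : ℝ → Set G) {n : ℕ} (A : Fin n → Finset α)
    (a₀ : α) (f : Fin n → α → G) (k : Fin n) (s : ℕ) (r : ℝ) :
    En R (CS A a₀ {k}) (fS f {k}) s r ≤ En R (A k) (f k) s r := by
  refine En_le_of_inj R _ _ _ _ (fun y => y k) ?_ ?_ ?_ s r
  · intro y hy
    rw [mem_CS] at hy
    exact hy.1 k (Finset.mem_singleton_self k)
  · intro y hy y' hy' e
    rw [mem_CS] at hy hy'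
    funext j
    by_cases hj : j = k
    · rw [hj]; exact e
    · rw [hy.2 j (fun h => hj (Finset.mem_singleton.1 h)),
        hy'.2 j (fun h => hj (Finset.mem_singleton.1 h))]
  · intro y _
    unfold fS
    rw [Finset.prod_singleton]

lemma split_case {G α : Type} [CommGroup G] (R : ℝ → Set G) {n : ℕ} (A : Fin n → Finset α)
    (a₀ : α) (f : Fin n → α → G) {S S1 : Finset (Fin n)} (hS : S1 ⊆ S) (s : ℕ) (r : ℝ) :
    En R (CS A a₀ S) (fS f S) s r ≤
      En R (CS A a₀ S1 ×ˢ CS A a₀ (S \ S1)) (fun w => fS f S1 w.1 * fS f (S \ S1) w.2) s r := by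
  refine En_le_of_inj R _ _ _ _ (fun y => (rs a₀ S1 y, rs a₀ (S \ S1) y)) ?_ ?_ ?_ s r
  · intro y hy
    exact Finset.mem_product.2 ⟨rs_mem A a₀ hS hy, rs_mem A a₀ Finset.sdiff_subset hy⟩
  · intro y hy y' hy' e
    rw [mem_CS] at hy hy'
    have e1 := congrArg Prod.fst e
    have e2 := congrArg Prod.snd e
    dsimp only at e1 e2
    funext j
    by_cases hj : j ∈ S
    · by_cases hj1 : j ∈ S1
      · have := congrFun e1 j
        rwa [rs_of_mem a₀ y hj1, rs_of_mem a₀ y' hj1] at this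
      · have hj2 : j ∈ S \ S1 := Finset.mem_sdiff.2 ⟨hj, hj1⟩
        have := congrFun e2 j
        rwa [rs_of_mem a₀ y hj2, rs_of_mem a₀ y' hj2] at this
    · rw [hy.2 j hj, hy'.2 j hj]
  · intro y _
    unfold fS
    dsimp only
    rw [← Finset.prod_sdiff hS, mul_comm]
    congr 1
    · exact Finset.prod_congr rfl (fun k hk => by rw [rs_of_mem a₀ y hk])
    · exact Finset.prod_congr rfl (fun k hk => by rw [rs_of_mem a₀ y hk])

/-- The main induction. -/
lemma main (hSPL : S_SPL) (hKRF : S_KRF) {G : Type} [CommGroup G] (R : ℝ → Set G) (hR : Sys R)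
    {α : Type} (a₀ : α) (n : ℕ) (A : Fin n → Finset α) (f : Fin n → α → G) (d : Fin n → ℕ)
    (r : ℝ) (hr : 0 ≤ r) (m : ℕ) : ∀ (D : ℕ) (S : Finset (Fin n)), (∀ k ∈ S, D ≤ d k) →
    (∀ k ∈ S, d k < D + m) → ∑ k ∈ S, (1 / 2 : ℝ) ^ d k ≤ (1 / 2) ^ D →
    (En R (CS A a₀ S) (fS f S) (2 ^ D) (2 ^ D * r) : ℝ) ≤
      ∏ k ∈ S, (En R (A k) (f k) (2 ^ d k) (2 ^ d k * r) : ℝ) ^
        ((2 : ℝ) ^ D * (1 / 2 : ℝ) ^ d k) := by
  classical
  induction m with
  | zero =>
    intro D S h1 h2 h3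
    rcases S.eq_empty_or_nonempty with rfl | ⟨k, hk⟩
    · rw [Finset.prod_empty]
      exact_mod_cast empty_case R A a₀ (fS f ∅) (2 ^ D) (2 ^ D * r)
    · have := h1 k hk
      have := h2 k hk
      omega
  | succ m ih =>
    intro D S h1 h2 h3
    by_cases hex : ∃ k ∈ S, d k = D
    · obtain ⟨k, hk, hkD⟩ := hex
      have hS : S = {k} := by
        refine Finset.eq_singleton_iff_unique_mem.2 ⟨hk, fun j hj => ?_⟩
        by_contra hne
        have h4 : (1 / 2 : ℝ) ^ d k + (1 / 2) ^ d j ≤ ∑ k ∈ S, (1 / 2 : ℝ) ^ d k := by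
          rw [← Finset.sum_pair (f := fun i => (1 / 2 : ℝ) ^ d i) (Ne.symm hne)]
          refine Finset.sum_le_sum_of_subset_of_nonneg ?_ (fun i _ _ => by positivity)
          intro i hi
          rcases Finset.mem_insert.1 hi with rfl | hi
          · exact hk
          · rw [Finset.mem_singleton.1 hi]; exact hj
        have h5 : (0 : ℝ) < (1 / 2) ^ d j := by positivity
        rw [hkD] at h4
        linarith
      subst hS
      rw [Finset.prod_singleton, hkD]
      have e : (2 : ℝ) ^ D * (1 / 2) ^ D = 1 := by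
        rw [← mul_pow]; norm_num
      rw [e, Real.rpow_one]
      exact_mod_cast single_case R A a₀ f k (2 ^ D) (2 ^ D * r)
    · have h1' : ∀ k ∈ S, D + 1 ≤ d k := by
        intro k hk
        have := h1 k hk
        have h6 : d k ≠ D := fun e => hex ⟨k, hk, e⟩
        omega
      obtain ⟨S1, hS1, hA, hB⟩ := hKRF (Fin n) S d D h1' h3
      have i1 := ih (D + 1) S1 (fun k hk => h1' k (hS1 hk))
        (fun k hk => by have := h2 k (hS1 hk); omega) hA
      have i2 := ih (D + 1) (S \ S1) (fun k hk => h1' k (Finset.sdiff_subset hk))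
        (fun k hk => by have := h2 k (Finset.sdiff_subset hk); omega) hB
      have hs := split_case R A a₀ f hS1 (2 ^ D) (2 ^ D * r)
      have hq := hSPL G R hR (Fin n → α) (Fin n → α) (CS A a₀ S1) (CS A a₀ (S \ S1))
        (fS f S1) (fS f (S \ S1)) (2 ^ D) (2 ^ D * r) (by positivity)
      have e1 : 2 * 2 ^ D = 2 ^ (D + 1) := by rw [pow_succ']
      have e2 : 2 * ((2 : ℝ) ^ D * r) = 2 ^ (D + 1) * r := by rw [pow_succ']; ring
      rw [e1, e2] at hq
      set P := ∏ k ∈ S, (En R (A k) (f k) (2 ^ d k) (2 ^ d k * r) : ℝ) ^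
        ((2 : ℝ) ^ D * (1 / 2 : ℝ) ^ d k) with hP
      have hP0 : 0 ≤ P := Finset.prod_nonneg (fun k _ => Real.rpow_nonneg (Nat.cast_nonneg _) _)
      have hPsq : P ^ 2 = ∏ k ∈ S, (En R (A k) (f k) (2 ^ d k) (2 ^ d k * r) : ℝ) ^
          ((2 : ℝ) ^ (D + 1) * (1 / 2 : ℝ) ^ d k) := by
        rw [hP, ← Finset.prod_pow]
        refine Finset.prod_congr rfl (fun k _ => ?_)
        rw [← Real.rpow_natCast, ← Real.rpow_mul (Nat.cast_nonneg _)]
        congr 1
        rw [pow_succ']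
        push_cast
        ring
      rw [← Finset.prod_sdiff hS1] at hPsq
      have h7 : (En R (CS A a₀ S) (fS f S) (2 ^ D) (2 ^ D * r) : ℝ) ^ 2 ≤ P ^ 2 := by
        calc (En R (CS A a₀ S) (fS f S) (2 ^ D) (2 ^ D * r) : ℝ) ^ 2
            ≤ (En R (CS A a₀ S1 ×ˢ CS A a₀ (S \ S1))
                (fun w => fS f S1 w.1 * fS f (S \ S1) w.2) (2 ^ D) (2 ^ D * r) : ℝ) ^ 2 := by
              have : (En R (CS A a₀ S) (fS f S) (2 ^ D) (2 ^ D * r) : ℝ) ≤
                (En R (CS A a₀ S1 ×ˢ CS A a₀ (S \ S1))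
                (fun w => fS f S1 w.1 * fS f (S \ S1) w.2) (2 ^ D) (2 ^ D * r) : ℝ) := by
                exact_mod_cast hs
              exact pow_le_pow_left₀ (Nat.cast_nonneg _) this 2
          _ ≤ (En R (CS A a₀ S1) (fS f S1) (2 ^ (D + 1)) (2 ^ (D + 1) * r) : ℝ) *
              (En R (CS A a₀ (S \ S1)) (fS f (S \ S1)) (2 ^ (D + 1)) (2 ^ (D + 1) * r) : ℝ) := by
              exact_mod_cast hq
          _ ≤ P ^ 2 := by
              rw [hPsq, mul_comm]
              exact mul_le_mul i2 i1 (Nat.cast_nonneg _)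
                (Finset.prod_nonneg (fun k _ => Real.rpow_nonneg (Nat.cast_nonneg _) _))
      exact (pow_le_pow_iff_left₀ (Nat.cast_nonneg _) hP0 (two_ne_zero)).1 h7

end TREaux

open TREaux in
/-- (TRE). -/
theorem tre_thm (hSPL : S_SPL) (hKRF : S_KRF) : S_TRE := by
  classical
  intro G _ R hR α n A f d r hr hd
  rcases isEmpty_or_nonempty α with hα | ⟨⟨a₀⟩⟩
  · -- no elements: `n = 0` or the energy vanishes
    rcases Nat.eq_zero_or_pos n with rfl | hn
    · rw [Finset.univ_eq_empty, Finset.prod_empty]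
      have : En R (Fintype.piFinset A) (fun y => ∏ k, f k (y k)) 1 r ≤ 1 := by
        unfold En
        rw [Finset.card_le_one]
        intro w _ w' _
        refine Prod.ext (funext fun j => ?_) (funext fun j => ?_)
        · exact funext fun k => Fin.elim0 k
        · exact funext fun k => Fin.elim0 k
      exact_mod_cast this
    · have : En R (Fintype.piFinset A) (fun y => ∏ k, f k (y k)) 1 r = 0 := by
        unfold En
        rw [Finset.card_eq_zero, Finset.eq_empty_iff_forall_notMem]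
        intro w _
        exact hα.elim (w.1 0 ⟨0, hn⟩)
      rw [this, Nat.cast_zero]
      exact Finset.prod_nonneg (fun k _ => Real.rpow_nonneg (Nat.cast_nonneg _) _)
  · have h := main hSPL hKRF R hR a₀ n A f d r hr ((Finset.univ.sup d) + 1) 0 Finset.univ
      (fun k _ => Nat.zero_le _)
      (fun k _ => by
        have : d k ≤ Finset.univ.sup d := Finset.le_sup (Finset.mem_univ k)
        omega) (by simpa using hd)
    have e : CS A a₀ Finset.univ = Fintype.piFinset A := by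
      ext y
      rw [mem_CS, Fintype.mem_piFinset]
      constructor
      · intro hy k
        exact hy.1 k (Finset.mem_univ k)
      · intro hy
        exact ⟨fun k _ => hy k, fun k hk => absurd (Finset.mem_univ k) hk⟩
    rw [e] at h
    have e2 : fS f Finset.univ = fun y => ∏ k, f k (y k) := rfl
    rw [e2] at h
    simpa using h

end Pool.EXC
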