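import Pool.Agent.H46.EXC.StmtsY
import Pool.Agent.H91.VIO.LPF

/-!
# RLP: few triples with known small primes and one small coordinate
-/

set_option autoImplicit false

namespace Pool.EXC

open Finset Pool.Agent.H98.ABCR Pool.SHA Pool.ABY Pool.VIO

namespace RLP

open Pool.VIO.LPF

lemma fam_mono {X h0 η lam lam' : ℝ} {K : Finset ℕ} {i : Fin 3} {v : ℕ × ℕ}
    (h : FamR X h0 η lam K i v) (hl : lam ≤ lam') (hh0 : 0 ≤ h0) : FamR X h0 η lam' K i v :=
  { h with lg := h.lg.trans (mul_le_mul_of_nonneg_right hl hh0) }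

lemma fam_insert {X h0 η lam : ℝ} {K : Finset ℕ} {i : Fin 3} {v : ℕ × ℕ} {p : ℕ}
    (h : FamR X h0 η lam K i v) (hp : p ∈ unk X η K i v) :
    FamR X h0 η lam (insert p K) i v where
  tri := h.tri
  rad := h.rad
  lo := h.lo
  up := h.up
  sub := Finset.insert_subset (unk_sub h.tri hp) h.sub
  sm := h.sm
  lg := by
    refine le_trans ?_ h.lg
    unfold lig
    refine Finset.sum_le_sum (fun s _ => ?_)
    refine Finset.sum_le_sum_of_subset_of_nonneg ?_ (fun q _ _ => by positivity)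
    intro q hq
    simp only [mem_filter, mem_insert, not_or] at hq ⊢
    exact ⟨hq.1, hq.2.1.2, hq.2.2⟩

/-- the two large coordinates and the real place -/
lemma two_large {v : ℕ × ℕ} {i : Fin 3} (ht : IsTri v) (h8 : 8 ≤ hh v)
    (hs : Real.log (coord v i) ≤ hh v / 2) :
    2 * hh v - Real.log 2 ≤ ∑ s ∈ univ.erase i, Real.log (coord v s) ∧
      Real.log ((min v.1 v.2 : ℕ) : ℝ) ≤ hh v / 2 := by
  have hv1 : (0 : ℝ) < v.1 := by exact_mod_cast ht.1
  have hv2 : (0 : ℝ) < v.2 := by exact_mod_cast ht.2.1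
  have hm : 0 < min v.1 v.2 := lt_min ht.1 ht.2.1
  have hm' : (0 : ℝ) < ((min v.1 v.2 : ℕ) : ℝ) := by exact_mod_cast hm
  have hl2 := Real.log_two_lt_d9
  have hmm : ∀ m : ℕ, 0 < m → v.1 + v.2 ≤ 2 * m → hh v ≤ Real.log 2 + Real.log m := by
    intro m hm0 hm2
    have hm0' : (0 : ℝ) < (m : ℝ) := by exact_mod_cast hm0
    rw [← Real.log_mul (by norm_num) hm0'.ne']
    unfold hh
    refine Real.log_le_log (by push_cast; positivity) ?_
    exact_mod_cast hm2
  have e2 : Real.log (coord v i) + ∑ s ∈ univ.erase i, Real.log (coord v s) =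
      Real.log v.1 + Real.log v.2 + hh v := by
    rw [Finset.add_sum_erase _ (fun s => Real.log (coord v s)) (mem_univ i), Fin.sum_univ_three]
    simp [coord, hh]
  have hcase : i = 0 ∨ i = 1 ∨ i = 2 := by
    fin_cases i <;> simp
  rcases hcase with rfl | rfl | rfl
  · have c0 : coord v 0 = v.1 := rfl
    rw [c0] at hs e2
    have h12 : v.1 ≤ v.2 := by
      by_contra hc
      have := hmm v.1 ht.1 (by omega)
      linarith
    have h3 := hmm v.2 ht.2.1 (by omega)
    have h4 : Real.log ((min v.1 v.2 : ℕ) : ℝ) ≤ Real.log v.1 :=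
      Real.log_le_log hm' (by exact_mod_cast min_le_left _ _)
    exact ⟨by linarith, by linarith⟩
  · have c0 : coord v 1 = v.2 := rfl
    rw [c0] at hs e2
    have h12 : v.2 ≤ v.1 := by
      by_contra hc
      have := hmm v.2 ht.2.1 (by omega)
      linarith
    have h3 := hmm v.1 ht.1 (by omega)
    have h4 : Real.log ((min v.1 v.2 : ℕ) : ℝ) ≤ Real.log v.2 :=
      Real.log_le_log hm' (by exact_mod_cast min_le_right _ _)
    exact ⟨by linarith, by linarith⟩
  · have c0 : coord v 2 = v.1 + v.2 := rfl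
    rw [c0] at hs
    have : Real.log ((v.1 + v.2 : ℕ) : ℝ) = hh v := rfl
    rw [this] at hs
    linarith

lemma mass_ge {X h0 η lam : ℝ} {K : Finset ℕ} {i : Fin 3} {v : ℕ × ℕ}
    (h : FamR X h0 η lam K i v) (hu : unk X η K i v = ∅) (hl : lam ≤ 1 / 8)
    (h8 : 8 ≤ h0) : (2 + 1 / 4) * hh v ≤ mass K v := by
  have e1 : ∑ s ∈ univ.erase i, Real.log (coord v s) ≤
      ∑ s ∈ univ.erase i, kl K (coord v s) + lam * h0 := by
    refine le_trans (Finset.sum_le_sum (fun s hs =>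
      log_coord_le hu (Finset.ne_of_mem_erase hs))) ?_
    rw [Finset.sum_add_distrib]
    have := h.lg
    unfold lig at this
    linarith
  have e3 : kl K (coord v i) + ∑ s ∈ univ.erase i, kl K (coord v s) =
      ∑ s : Fin 3, kl K (coord v s) :=
    Finset.add_sum_erase _ (fun s => kl K (coord v s)) (mem_univ i)
  have e4 : 0 ≤ kl K (coord v i) := by
    unfold kl
    exact Finset.sum_nonneg (fun q _ => by positivity)
  have e5 := h.lo
  have e6 := h.up
  obtain ⟨e7, e8⟩ := two_large h.tri (by linarith) h.sm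
  have e9 : lam * h0 ≤ 1 / 8 * h0 := mul_le_mul_of_nonneg_right hl (by linarith)
  have hl2 := Real.log_two_lt_d9
  unfold mass
  linarith

/-- the claim for at most `k` unknown large primes -/
def PK (η : ℝ) (k : ℕ) : Prop := ∀ ε : ℝ, 0 < ε → ε ≤ 1 → ∃ lam κ0 X0 ε2 : ℝ,
  0 < lam ∧ 1 ≤ κ0 ∧ 3 ≤ X0 ∧ 0 < ε2 ∧ ∀ (X h0 : ℝ) (K : Finset ℕ) (i : Fin 3)
    (F : Finset (ℕ × ℕ)), X0 ≤ X → κ0 * Real.log X ≤ h0 → h0 ≤ X ^ ε2 →
    (∀ v ∈ F, FamR X h0 η lam K i v ∧ (unk X η K i v).card ≤ k) → (F.card : ℝ) ≤ X ^ ε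

lemma pk_zero (hG : S_GPD) {η : ℝ} : PK η 0 := by
  intro ε hε _
  obtain ⟨C, hC, hgap⟩ := hG (1 / 4) (by norm_num) (by norm_num)
  obtain ⟨C', hC', homb⟩ := Pool.FEX.omb_thm C (ε / 2) hC (by positivity)
  refine ⟨1 / 8, 8, max 3 (C' ^ (2 / ε)), 1, by norm_num, by norm_num, le_max_left _ _,
    one_pos, ?_⟩
  intro X h0 K i F hX hh0 _ hF
  have hX3 : 3 ≤ X := (le_max_left _ _).trans hX
  have hX0 : 0 < X := by linarith
  have hL := log_ge_one hX3
  rcases F.eq_empty_or_nonempty with hE | ⟨v, hv⟩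
  · rw [hE]
    simp
    positivity
  have h8 : 8 ≤ h0 := by linarith
  have hh0p : 0 < h0 := by linarith
  have hKp : ∀ q ∈ K, q.Prime := fun q hq =>
    Nat.prime_of_mem_primeFactors ((hF v hv).1.sub hq)
  have h1 := hgap h0 K F hh0p hKp (fun w hw => by
    obtain ⟨hw1, hw2⟩ := hF w hw
    refine ⟨hw1.tri, hw1.lo, hw1.up, ?_⟩
    exact mass_ge hw1 (Finset.card_eq_zero.1 (Nat.le_zero.1 hw2)) le_rfl h8)
  have h2 : K.card ≤ om (RR v) := by
    have e : (RR v).primeFactors = (nn v).primeFactors := by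
      unfold RR rad
      exact Nat.primeFactors_prod (fun p hp => Nat.prime_of_mem_primeFactors hp)
    unfold om
    rw [e]
    exact Finset.card_le_card (hF v hv).1.sub
  have hR1 : 1 ≤ RR v := by
    unfold RR rad
    exact Nat.one_le_iff_ne_zero.2 (Finset.prod_ne_zero_iff.2
      (fun p hp => (Nat.prime_of_mem_primeFactors hp).ne_zero))
  calc (F.card : ℝ) ≤ C ^ (K.card + 1) := h1
    _ ≤ C ^ (om (RR v) + 1) := pow_le_pow_right₀ hC (by omega)
    _ ≤ C' * (RR v : ℝ) ^ (ε / 2) := homb (RR v) hR1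
    _ ≤ X ^ (ε / 2) * X ^ (ε / 2) := by
        refine mul_le_mul ?_ ?_ (by positivity) (by positivity)
        · have : C' ^ (2 / ε) ≤ X := (le_max_right _ _).trans hX
          have h3 := Real.rpow_le_rpow (by positivity) this (by positivity : 0 ≤ ε / 2)
          rw [← Real.rpow_mul (by linarith)] at h3
          have e : 2 / ε * (ε / 2) = 1 := by field_simp
          rwa [e, Real.rpow_one] at h3
        · exact Real.rpow_le_rpow (by positivity) (hF v hv).1.rad (by positivity)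
    _ = X ^ ε := by
        rw [← Real.rpow_add hX0]
        congr 1
        ring

lemma pk_succ (hT : S_RTX) {η : ℝ} (hη : 0 < η) (hη1 : η ≤ 1) {k : ℕ} (hk : PK η k) :
    PK η (k + 1) := by
  classical
  intro ε hε hε1
  obtain ⟨lam1, κ1, X1, e1, hlam1, hκ1, hX1, he1, hTS⟩ :=
    hT η (ε / 4) hη hη1 (by positivity) (by linarith)
  obtain ⟨lam2, κ2, X2, e2, hlam2, hκ2, hX2, he2, hPK⟩ := hk (ε / 4) (by positivity) (by linarith)
  refine ⟨min lam1 lam2, max κ1 κ2, max (max X1 X2) ((1 + 1 / η) ^ (2 / ε)), min e1 e2,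
    lt_min hlam1 hlam2, hκ1.trans (le_max_left _ _),
    (hX1.trans (le_max_left _ _)).trans (le_max_left _ _), lt_min he1 he2, ?_⟩
  intro X h0 K i F hX hh0 hup hF
  have hXX : max X1 X2 ≤ X := (le_max_left _ _).trans hX
  have hX1' : X1 ≤ X := (le_max_left _ _).trans hXX
  have hX2' : X2 ≤ X := (le_max_right _ _).trans hXX
  have hX3 : 3 ≤ X := hX1.trans hX1'
  have hX0 : 0 < X := by linarith
  have hL := log_ge_one hX3
  have hL0 : 0 ≤ Real.log X := by linarith
  have hh1 : κ1 * Real.log X ≤ h0 :=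
    (mul_le_mul_of_nonneg_right (le_max_left _ _) hL0).trans hh0
  have hh2 : κ2 * Real.log X ≤ h0 :=
    (mul_le_mul_of_nonneg_right (le_max_right _ _) hL0).trans hh0
  have hu1 : h0 ≤ X ^ e1 := hup.trans
    (Real.rpow_le_rpow_of_exponent_le (by linarith) (min_le_left _ _))
  have hu2 : h0 ≤ X ^ e2 := hup.trans
    (Real.rpow_le_rpow_of_exponent_le (by linarith) (min_le_right _ _))
  have hh00 : 0 ≤ h0 := le_trans (by positivity) hh1
  set F0 := F.filter (fun v => unk X η K i v = ∅) with hF0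
  set F1 := F.filter (fun v => ¬ unk X η K i v = ∅) with hF1
  have hcard : F0.card + F1.card = F.card := Finset.card_filter_add_card_filter_not _
  have hc0 : (F0.card : ℝ) ≤ X ^ (ε / 4) := by
    refine hPK X h0 K i F0 hX2' hh2 hu2 (fun v hv => ?_)
    obtain ⟨hv1, hv2⟩ := mem_filter.1 hv
    exact ⟨fam_mono (hF v hv1).1 (min_le_right _ _) hh00, by rw [hv2]; simp⟩
  obtain ⟨G, hGF, hGd, hGm⟩ := exists_maximal F1 (fun v => unk X η K i v) (fun v hv =>
    Finset.nonempty_iff_ne_empty.2 (mem_filter.1 hv).2)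
  have hG : (G.card : ℝ) ≤ X ^ (ε / 4) := by
    refine hTS X h0 K i G hX1' hh1 hu1 (fun v hv => ?_) (fun v hv => ?_)
    · exact fam_mono (hF v (mem_filter.1 (hGF hv)).1).1 (min_le_left _ _) hh00
    · obtain ⟨q, hq⟩ := Finset.nonempty_iff_ne_empty.2 (mem_filter.1 (hGF hv)).2
      obtain ⟨⟨s, hs, hqs⟩, hqK, hqX⟩ := mem_unk.1 hq
      refine ⟨s, hs, q, Nat.prime_of_mem_primeFactors hqs, hqK, Nat.dvd_of_mem_primeFactors hqs, ?_⟩
      intro v' hv' hne s' hs' hdvd
      have htri : IsTri v' := (hF v' (mem_filter.1 (hGF hv')).1).1.tri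
      have hq' : q ∈ unk X η K i v' := mem_unk.2 ⟨⟨s', hs', Nat.mem_primeFactors.2
        ⟨Nat.prime_of_mem_primeFactors hqs, hdvd, (coord_pos htri s').ne'⟩⟩, hqK, hqX⟩
      exact Finset.disjoint_left.1 (hGd v hv v' hv' hne.symm) hq hq'
  set B := G.biUnion (fun v => unk X η K i v) with hB
  have hBc : (B.card : ℝ) ≤ X ^ (ε / 4) * (1 / η) := by
    have h1 : (B.card : ℝ) ≤ ∑ v ∈ G, ((unk X η K i v).card : ℝ) := by
      exact_mod_cast Finset.card_biUnion_le
    have h2 : ∀ v ∈ G, ((unk X η K i v).card : ℝ) ≤ 1 / η := by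
      intro v hv
      have hf := (hF v (mem_filter.1 (hGF hv)).1).1
      have := unk_card (η := η) (K := K) (i := i) hf.tri hf.rad (by linarith)
      rw [le_div_iff₀ hη]
      linarith
    calc (B.card : ℝ) ≤ ∑ v ∈ G, ((unk X η K i v).card : ℝ) := h1
      _ ≤ ∑ _v ∈ G, (1 / η) := Finset.sum_le_sum h2
      _ = (G.card : ℝ) * (1 / η) := by rw [Finset.sum_const, nsmul_eq_mul]
      _ ≤ X ^ (ε / 4) * (1 / η) := mul_le_mul_of_nonneg_right hG (by positivity)
  have hsub : F1 ⊆ B.biUnion (fun p => F1.filter (fun v => p ∈ unk X η K i v)) := by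
    intro v hv
    obtain ⟨p, hp, hpB⟩ := hGm v hv
    exact mem_biUnion.2 ⟨p, hpB, mem_filter.2 ⟨hv, hp⟩⟩
  have hfib : ∀ p ∈ B, ((F1.filter (fun v => p ∈ unk X η K i v)).card : ℝ) ≤ X ^ (ε / 4) := by
    intro p _
    refine hPK X h0 (insert p K) i _ hX2' hh2 hu2 (fun v hv => ?_)
    obtain ⟨hv1, hv2⟩ := mem_filter.1 hv
    obtain ⟨hf1, hf2⟩ := hF v (mem_filter.1 hv1).1
    refine ⟨fam_insert (fam_mono hf1 (min_le_right _ _) hh00) hv2, ?_⟩
    rw [unk_insert, Finset.card_erase_of_mem hv2]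
    omega
  have hc1' : (F1.card : ℝ) ≤ X ^ (ε / 4) * (1 / η) * X ^ (ε / 4) := by
    calc (F1.card : ℝ) ≤ ((B.biUnion (fun p => F1.filter (fun v => p ∈ unk X η K i v))).card : ℝ) := by
          exact_mod_cast Finset.card_le_card hsub
      _ ≤ ∑ p ∈ B, ((F1.filter (fun v => p ∈ unk X η K i v)).card : ℝ) := by
          exact_mod_cast Finset.card_biUnion_le
      _ ≤ ∑ _p ∈ B, X ^ (ε / 4) := Finset.sum_le_sum hfib
      _ = (B.card : ℝ) * X ^ (ε / 4) := by rw [Finset.sum_const, nsmul_eq_mul]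
      _ ≤ X ^ (ε / 4) * (1 / η) * X ^ (ε / 4) :=
          mul_le_mul_of_nonneg_right hBc (by positivity)
  have hone : (1 : ℝ) ≤ X ^ (ε / 4) := Real.one_le_rpow (by linarith) (by positivity)
  have hprod : X ^ (ε / 4) * X ^ (ε / 4) = X ^ (ε / 2) := by
    rw [← Real.rpow_add hX0]
    congr 1
    ring
  have hprod2 : X ^ (ε / 2) * X ^ (ε / 2) = X ^ ε := by
    rw [← Real.rpow_add hX0]
    congr 1
    ring
  have hbig : 1 + 1 / η ≤ X ^ (ε / 2) := by
    have h1 : (1 + 1 / η) ^ (2 / ε) ≤ X := (le_max_right _ _).trans hX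
    have h3 := Real.rpow_le_rpow (by positivity) h1 (by positivity : 0 ≤ ε / 2)
    rw [← Real.rpow_mul (by positivity)] at h3
    have e : 2 / ε * (ε / 2) = 1 := by field_simp
    rwa [e, Real.rpow_one] at h3
  have hsum : (F.card : ℝ) = F0.card + F1.card := by exact_mod_cast hcard.symm
  calc (F.card : ℝ) = F0.card + F1.card := hsum
    _ ≤ X ^ (ε / 4) + X ^ (ε / 4) * (1 / η) * X ^ (ε / 4) := add_le_add hc0 hc1'
    _ ≤ X ^ (ε / 2) + (1 / η) * X ^ (ε / 2) := by
        refine add_le_add ?_ (le_of_eq ?_)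
        · rw [← hprod]
          nlinarith
        · rw [← hprod]
          ring
    _ = (1 + 1 / η) * X ^ (ε / 2) := by ring
    _ ≤ X ^ (ε / 2) * X ^ (ε / 2) := mul_le_mul_of_nonneg_right hbig (by positivity)
    _ = X ^ ε := hprod2

end RLP

open RLP in
open Pool.VIO.LPF (unk unk_card) in
theorem rlp_thm (hT : S_RTX) (hG : S_GPD) : S_RLP := by
  intro η ε hη hη1 hε hε1
  have hk : ∀ k : ℕ, PK η k := by
    intro k
    induction k with
    | zero => exact pk_zero hG
    | succ k ih => exact pk_succ hT hη hη1 ih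
  obtain ⟨lam, κ0, X0, ε2, h1, h2, h3, h5, h4⟩ := hk ⌊1 / η⌋₊ ε hε hε1
  refine ⟨lam, κ0, X0, ε2, h1, h2, h3, h5, fun X h0 K i F hX hh0 hup hF => ?_⟩
  refine h4 X h0 K i F hX hh0 hup (fun v hv => ⟨hF v hv, ?_⟩)
  have hf := hF v hv
  have := unk_card (η := η) (K := K) (i := i) hf.tri hf.rad (by linarith)
  refine Nat.le_floor ?_
  rw [le_div_iff₀ hη]
  linarith

end Pool.EXC
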